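import Pool.Agent.Helper94.GA.Goals

/-!
# Packet BIG: one embedding with `‖σ α‖ ≥ 2`
-/

namespace Pool.Agent.Helper96.GA

open Finset
open Pool.Agent.Helper94.GA

universe u

theorem geo_all {r y : ℝ} (hr : 2 ≤ r) (n : ℕ) :
    ∑ k ∈ range n, (r ^ k * y) ^ 2 ≤ (1 / 3) * (r ^ n * y) ^ 2 := by
  induction n with
  | zero => simp; positivity
  | succ n ih =>
    rw [sum_range_succ]
    have h1 : (r ^ (n + 1) * y) ^ 2 = r ^ 2 * (r ^ n * y) ^ 2 := by ring
    rw [h1]
    have h2 : (4 : ℝ) ≤ r ^ 2 := by nlinarith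
    nlinarith [sq_nonneg (r ^ n * y)]

theorem geo_le {r y : ℝ} (hr : 2 ≤ r) (hy : 0 ≤ y) (s : ℝ) (_hs : 0 ≤ s) (n : ℕ) :
    ∑ k ∈ range n, (if r ^ k * y ≤ s then (r ^ k * y) ^ 2 else 0) ≤ (4 / 3) * s ^ 2 := by
  induction n with
  | zero => simp; positivity
  | succ n ih =>
    rw [sum_range_succ]
    by_cases h : r ^ n * y ≤ s
    · have h0 : 0 ≤ r ^ n * y := by positivity
      have h1 : ∑ k ∈ range n, (if r ^ k * y ≤ s then (r ^ k * y) ^ 2 else 0) ≤
          ∑ k ∈ range n, (r ^ k * y) ^ 2 := by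
        refine sum_le_sum fun k _ => ?_
        split_ifs
        · exact le_rfl
        · positivity
      have h2 := geo_all (y := y) hr n
      rw [if_pos h]
      have h3 : (r ^ n * y) ^ 2 ≤ s ^ 2 := by gcongr
      linarith
    · rw [if_neg h, add_zero]
      exact ih

theorem term_ge {S N : ℝ} (hS : 0 < S) (hN : 0 ≤ N) (h : N ≤ (4 / 3) * S) :
    3 / 14 ≤ (1 / 2) * (S / (S + N)) := by
  have h1 : 3 / 7 ≤ S / (S + N) := by
    rw [le_div_iff₀ (by linarith)]
    linarith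
  linarith

theorem BIG (hA : AVG_stmt.{u}) : BIG_stmt.{u} := by
  intro K _ C _ _ α x hx σ hσ n
  classical
  set r : ℝ := ‖σ α‖ with hr
  set sz : Fin n × C → ℝ := fun p => r ^ (p.1 : ℕ) * ‖σ (x p.2)‖ with hsz
  have hr0 : 0 < r := by linarith
  have hxp : ∀ c, 0 < ‖σ (x c)‖ := by
    intro c
    rw [norm_pos_iff]
    exact (map_ne_zero σ).2 (hx c)
  have hszp : ∀ p, 0 < sz p := fun p => by
    have := hxp p.2
    simp only [hsz]
    positivity
  have hcard : 0 < (Fintype.card C : ℝ) := by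
    exact_mod_cast Fintype.card_pos
  obtain ⟨e0⟩ : Nonempty (Fin (n * Fintype.card C) ≃ Fin n × C) := by
    refine ⟨(Fintype.equivFinOfCardEq ?_).symm⟩
    simp
  set e : Fin (n * Fintype.card C) → Fin n × C :=
    fun j => e0 (Tuple.sort (sz ∘ e0) j) with he
  have hmono : Monotone (fun j => sz (e j)) := Tuple.monotone_sort (sz ∘ e0)
  have hinj : Function.Injective e := e0.injective.comp (Equiv.injective _)
  have hval : ∀ i, ‖(σ : K →+ ℂ) (α ^ ((e i).1 : ℕ) * x (e i).2)‖ = sz (e i) := by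
    intro i
    simp [hsz, hr]
  have key := hA K C α x n (n * Fintype.card C) e (fun _ => (σ : K →+ ℂ)) hinj
  refine le_trans ?_ key
  have hterm : ∀ j, (3 / 14 : ℝ) ≤ (1 / 2) *
      (‖(σ : K →+ ℂ) (α ^ ((e j).1 : ℕ) * x (e j).2)‖ ^ 2 /
        (‖(σ : K →+ ℂ) (α ^ ((e j).1 : ℕ) * x (e j).2)‖ ^ 2 + (1 / (Fintype.card C : ℝ)) *
          ∑ i ∈ univ.filter (fun i => i < j),
            ‖(σ : K →+ ℂ) (α ^ ((e i).1 : ℕ) * x (e i).2)‖ ^ 2)) := by
    intro j
    simp only [hval]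
    refine term_ge (by have := hszp (e j); positivity) (by positivity) ?_
    have h1 : ∑ i ∈ univ.filter (fun i => i < j), sz (e i) ^ 2 ≤
        ∑ p : Fin n × C, (if sz p ≤ sz (e j) then sz p ^ 2 else 0) := by
      have h2 : ∑ i ∈ univ.filter (fun i => i < j), sz (e i) ^ 2 =
          ∑ p ∈ (univ.filter (fun i => i < j)).image e, sz p ^ 2 := by
        rw [sum_image (fun a _ b _ h => hinj h)]
      rw [h2, ← sum_filter]
      refine sum_le_sum_of_subset_of_nonneg ?_ (fun p _ _ => by positivity)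
      intro p hp
      rw [mem_image] at hp
      obtain ⟨i, hi, rfl⟩ := hp
      rw [mem_filter] at hi
      rw [mem_filter]
      exact ⟨mem_univ _, hmono hi.2.le⟩
    have h3 : ∑ p : Fin n × C, (if sz p ≤ sz (e j) then sz p ^ 2 else 0) ≤
        (Fintype.card C : ℝ) * ((4 / 3) * sz (e j) ^ 2) := by
      rw [Fintype.sum_prod_type, sum_comm]
      have h4 : ∀ c : C, ∑ k : Fin n, (if sz (k, c) ≤ sz (e j) then sz (k, c) ^ 2 else 0) ≤
          (4 / 3) * sz (e j) ^ 2 := by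
        intro c
        have h5 := geo_le (y := ‖σ (x c)‖) hσ (hxp c).le (sz (e j)) (hszp _).le n
        rw [← Fin.sum_univ_eq_sum_range
          (fun k => if r ^ k * ‖σ (x c)‖ ≤ sz (e j) then (r ^ k * ‖σ (x c)‖) ^ 2 else 0)] at h5
        exact h5
      calc _ ≤ ∑ _c : C, (4 / 3) * sz (e j) ^ 2 := sum_le_sum fun c _ => h4 c
        _ = _ := by simp
    calc (1 / (Fintype.card C : ℝ)) * ∑ i ∈ univ.filter (fun i => i < j), sz (e i) ^ 2
        ≤ (1 / (Fintype.card C : ℝ)) * ((Fintype.card C : ℝ) * ((4 / 3) * sz (e j) ^ 2)) := by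
          gcongr
          exact h1.trans h3
      _ = (4 / 3) * sz (e j) ^ 2 := by field_simp
  calc (3 / 14 : ℝ) * n = (1 / (Fintype.card C : ℝ)) *
        ∑ _j : Fin (n * Fintype.card C), (3 / 14 : ℝ) := by
        simp
        field_simp
    _ ≤ _ := by
        gcongr with j
        exact hterm j

end Pool.Agent.Helper96.GA
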